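import Pool.Agent.Work.MP_1aa7fe_lc.Proof

set_option autoImplicit false

open Pool.Agent.Work.MP_1aa7fe_lc

/-- For some `p` in `(0,1)` there is a trajectory with competitive ratio below `4 - p`. -/
theorem Pool.Agent.Results.MP_1aa7fe_lc.BelowFourMinusP.result :
    ∃ p : ℝ, 0 < p ∧ p < 1 ∧ ∃ T : Trajectory, ratio p T < ENNReal.ofReal (4 - p) := by
  refine ⟨2 / 5, by norm_num, by norm_num, TT, ratio_le.trans_lt ?_⟩
  rw [ENNReal.ofReal_lt_ofReal_iff (by norm_num)]
  norm_num
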